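import Mathlib

/-!
The maximum size `a(n)` of a balanced family of graphs on `n` labelled vertices satisfies
`2 ^ ⌊(n-1)²/4⌋ ≤ a(n) ≤ n! 2 ^ ⌊N/2⌋` with `N = n(n-1)/2`; hence `log₂ a(n) ~ n²/4`.
-/

set_option autoImplicit false

namespace Pool.Agent.Results.MP_ce3f89_co.Growth

open Finset Filter Topology

/-- A family of graphs on `Fin n` is balanced if for any two members `A`, `B` the graphs `A \ B`
and `B \ A` are isomorphic. -/
def IsBalanced {n : ℕ} (F : Finset (SimpleGraph (Fin n))) : Prop :=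
  ∀ A ∈ F, ∀ B ∈ F, Nonempty ((A \ B) ≃g (B \ A))

/-- The maximum size of a balanced family of graphs on `Fin n`. -/
noncomputable def a (n : ℕ) : ℕ :=
  sSup {k | ∃ F : Finset (SimpleGraph (Fin n)), IsBalanced F ∧ F.card = k}

/-- the pairs `a < b` with `a + b < n - 1` -/
def R (n : ℕ) : Finset (Σ _ : ℕ, ℕ) := (range n).sigma (fun i => Ioo i (n - 1 - i))

lemma card_R (n : ℕ) : (R n).card = (n - 1) ^ 2 / 4 := by
  unfold R
  rw [card_sigma]
  simp only [Nat.card_Ioo]
  induction n using Nat.strong_induction_on with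
  | _ n ih =>
    match n with
    | 0 => simp
    | 1 => simp
    | n + 2 =>
      have h := ih n (by omega)
      rw [sum_range_succ', sum_range_succ]
      have h1 : ∀ k ∈ range n, n + 2 - 1 - (k + 1) - (k + 1) - 1 = n - 1 - k - k - 1 := by
        intro k _; omega
      rw [sum_congr rfl h1, h]
      have h2 : n + 2 - 1 - (n + 1) - (n + 1) - 1 = 0 := by omega
      have h3 : n + 2 - 1 - 0 - 0 - 1 = n := by omega
      rw [h2, h3]
      rcases Nat.eq_zero_or_pos n with h0 | h0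
      · subst h0; simp
      · obtain ⟨m, rfl⟩ := Nat.exists_eq_succ_of_ne_zero h0.ne'
        have e1 : m.succ + 2 - 1 = m + 2 := by omega
        have e2 : m.succ - 1 = m := by omega
        rw [e1, e2]
        have e3 : (m + 2) ^ 2 = m ^ 2 + (m + 1) * 4 := by ring
        rw [e3, Nat.add_mul_div_right _ _ (by norm_num)]
        simp [Nat.succ_eq_add_one]

/-- unordered pair of the values of `i` and `j` -/
def key {n : ℕ} (i j : Fin n) : Σ _ : ℕ, ℕ := ⟨min i.val j.val, max i.val j.val⟩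

lemma key_comm {n : ℕ} (i j : Fin n) : key i j = key j i := by
  unfold key; rw [min_comm, max_comm]

/-- the graph attached to a set `T` of low pairs -/
def graphOf (n : ℕ) (T : Finset (Σ _ : ℕ, ℕ)) : SimpleGraph (Fin n) where
  Adj i j := i ≠ j ∧ ((i.val + j.val + 1 < n ∧ key i j ∈ T) ∨
    (n < i.val + j.val + 1 ∧ key i.rev j.rev ∉ T))
  symm := ⟨by
    rintro i j ⟨hne, h⟩
    refine ⟨hne.symm, ?_⟩
    rw [key_comm j i, key_comm j.rev i.rev, add_comm j.val i.val]
    exact h⟩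
  loopless := ⟨fun i h => h.1 rfl⟩

lemma graphOf_adj {n : ℕ} {T : Finset (Σ _ : ℕ, ℕ)} {i j : Fin n} :
    (graphOf n T).Adj i j ↔ i ≠ j ∧ ((i.val + j.val + 1 < n ∧ key i j ∈ T) ∨
    (n < i.val + j.val + 1 ∧ key i.rev j.rev ∉ T)) := Iff.rfl

lemma graphOf_iso {n : ℕ} (T T' : Finset (Σ _ : ℕ, ℕ)) :
    Nonempty ((graphOf n T \ graphOf n T') ≃g (graphOf n T' \ graphOf n T)) := by
  refine ⟨⟨Fin.revPerm, ?_⟩⟩
  intro i j
  rw [SimpleGraph.sdiff_adj, SimpleGraph.sdiff_adj, graphOf_adj, graphOf_adj, graphOf_adj,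
    graphOf_adj]
  simp only [Fin.revPerm_apply, Fin.rev_rev, ne_eq, Fin.rev_inj, Fin.val_rev]
  have hi := i.2
  have hj := j.2
  have e1 : (n - (i.val + 1) + (n - (j.val + 1)) + 1 < n) ↔ n < i.val + j.val + 1 := by omega
  have e2 : (n < n - (i.val + 1) + (n - (j.val + 1)) + 1) ↔ i.val + j.val + 1 < n := by omega
  rw [e1, e2]
  by_cases hl : i.val + j.val + 1 < n
  · have hl' : ¬ (n < i.val + j.val + 1) := by omega
    tauto
  · by_cases hl' : n < i.val + j.val + 1
    · tauto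
    · tauto

lemma graphOf_inj {n : ℕ} {T T' : Finset (Σ _ : ℕ, ℕ)} (hT : T ⊆ R n) (hT' : T' ⊆ R n)
    (h : graphOf n T = graphOf n T') : T = T' := by
  have key1 : ∀ x ∈ R n, (x ∈ T ↔ x ∈ T') := by
    rintro ⟨p, q⟩ hx
    rw [R, mem_sigma, mem_range, mem_Ioo] at hx
    obtain ⟨h1, h2, h3⟩ := hx
    simp only at h1 h2 h3
    have hadj : (graphOf n T).Adj ⟨p, h1⟩ ⟨q, by omega⟩ ↔
        (graphOf n T').Adj ⟨p, h1⟩ ⟨q, by omega⟩ := by rw [h]
    rw [graphOf_adj, graphOf_adj] at hadj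
    have hk : key (⟨p, h1⟩ : Fin n) ⟨q, by omega⟩ = ⟨p, q⟩ := by
      unfold key
      simp only
      rw [min_eq_left h2.le, max_eq_right h2.le]
    rw [hk] at hadj
    simp only [ne_eq, Fin.mk.injEq] at hadj
    have e1 : p + q + 1 < n := by omega
    have e2 : ¬ (n < p + q + 1) := by omega
    have e3 : ¬ p = q := by omega
    simpa [e1, e2, e3] using hadj
  ext x
  constructor
  · intro hx; exact (key1 x (hT hx)).1 hx
  · intro hx; exact (key1 x (hT' hx)).2 hx

lemma bounded (n : ℕ) :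
    BddAbove {k | ∃ F : Finset (SimpleGraph (Fin n)), IsBalanced F ∧ F.card = k} := by
  classical
  refine ⟨Fintype.card (SimpleGraph (Fin n)), ?_⟩
  rintro k ⟨F, -, rfl⟩
  exact Finset.card_le_univ F

lemma lower (n : ℕ) : 2 ^ ((n - 1) ^ 2 / 4) ≤ a n := by
  classical
  apply le_csSup (bounded n)
  refine ⟨(R n).powerset.image (graphOf n), ?_, ?_⟩
  · intro A hA B hB
    obtain ⟨T, -, rfl⟩ := mem_image.1 hA
    obtain ⟨T', -, rfl⟩ := mem_image.1 hB
    exact graphOf_iso T T'
  · rw [card_image_of_injOn, card_powerset, card_R]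
    intro T hT T' hT' h
    exact graphOf_inj (mem_powerset.1 hT) (mem_powerset.1 hT') h

lemma upper {n : ℕ} {F : Finset (SimpleGraph (Fin n))} (hF : IsBalanced F) :
    F.card ≤ n.factorial * 2 ^ (n.choose 2 / 2) := by
  classical
  rcases F.eq_empty_or_nonempty with h | ⟨A, hA⟩
  · rw [h]; simp
  have hiso : ∀ B, ∃ φ : Equiv.Perm (Fin n), B ∈ F →
      ∀ i j, (B \ A).Adj (φ i) (φ j) ↔ (A \ B).Adj i j := by
    intro B
    by_cases hB : B ∈ F
    · obtain ⟨φ⟩ := hF A hA B hB
      exact ⟨φ.toEquiv, fun _ i j => φ.map_rel_iff⟩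
    · exact ⟨1, fun h => absurd h hB⟩
  choose φ hφ using hiso
  have hrec : ∀ B : SimpleGraph (Fin n), B = (A \ (A \ B)) ⊔ (B \ A) := by
    intro B
    ext i j
    simp only [SimpleGraph.sup_adj, SimpleGraph.sdiff_adj]
    tauto
  have b1 : F.card ≤ n.factorial * 2 ^ A.edgeFinset.card := by
    have hinj : Set.InjOn (fun B => (φ B, (A \ B).edgeFinset)) (F : Set (SimpleGraph (Fin n))) := by
      intro B hB B' hB' h
      simp only [Prod.mk.injEq, SimpleGraph.edgeFinset_inj] at h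
      have h2 : B \ A = B' \ A := by
        ext i j
        have e1 := hφ B hB ((φ B).symm i) ((φ B).symm j)
        have e2 := hφ B' hB' ((φ B).symm i) ((φ B).symm j)
        rw [← h.1] at e2
        simp only [Equiv.apply_symm_apply] at e1 e2
        rw [e1, e2, h.2]
      rw [hrec B, hrec B', h.2, h2]
    have hcard : (F.image (fun B => (φ B, (A \ B).edgeFinset))).card = F.card :=
      card_image_of_injOn hinj
    rw [← hcard]
    calc (F.image (fun B => (φ B, (A \ B).edgeFinset))).card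
        ≤ ((univ : Finset (Equiv.Perm (Fin n))) ×ˢ A.edgeFinset.powerset).card := by
          apply card_le_card
          intro x hx
          obtain ⟨B, hB, rfl⟩ := mem_image.1 hx
          rw [mem_product]
          refine ⟨mem_univ _, mem_powerset.2 ?_⟩
          exact SimpleGraph.edgeFinset_mono sdiff_le
      _ = n.factorial * 2 ^ A.edgeFinset.card := by
          rw [card_product, card_univ, Fintype.card_perm, Fintype.card_fin, card_powerset]
  have b2 : F.card ≤ n.factorial * 2 ^ (Aᶜ).edgeFinset.card := by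
    have hinj : Set.InjOn (fun B => (φ B, (B \ A).edgeFinset)) (F : Set (SimpleGraph (Fin n))) := by
      intro B hB B' hB' h
      simp only [Prod.mk.injEq, SimpleGraph.edgeFinset_inj] at h
      have h2 : A \ B = A \ B' := by
        ext i j
        rw [← hφ B hB i j, ← hφ B' hB' i j, ← h.1, h.2]
      rw [hrec B, hrec B', h.2, h2]
    have hcard : (F.image (fun B => (φ B, (B \ A).edgeFinset))).card = F.card :=
      card_image_of_injOn hinj
    rw [← hcard]
    calc (F.image (fun B => (φ B, (B \ A).edgeFinset))).card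
        ≤ ((univ : Finset (Equiv.Perm (Fin n))) ×ˢ (Aᶜ).edgeFinset.powerset).card := by
          apply card_le_card
          intro x hx
          obtain ⟨B, hB, rfl⟩ := mem_image.1 hx
          rw [mem_product]
          refine ⟨mem_univ _, mem_powerset.2 ?_⟩
          apply SimpleGraph.edgeFinset_mono
          intro i j hij
          rw [SimpleGraph.sdiff_adj] at hij
          rw [SimpleGraph.compl_adj]
          exact ⟨hij.1.ne, hij.2⟩
      _ = n.factorial * 2 ^ (Aᶜ).edgeFinset.card := by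
          rw [card_product, card_univ, Fintype.card_perm, Fintype.card_fin, card_powerset]
  have hsum : A.edgeFinset.card + (Aᶜ).edgeFinset.card = n.choose 2 := by
    have h1 : Disjoint A.edgeFinset (Aᶜ).edgeFinset := by
      rw [SimpleGraph.disjoint_edgeFinset]
      exact disjoint_compl_right
    rw [← card_union_of_disjoint h1, ← SimpleGraph.edgeFinset_sup]
    have h2 : (A ⊔ Aᶜ).edgeFinset = (⊤ : SimpleGraph (Fin n)).edgeFinset := by
      rw [SimpleGraph.edgeFinset_inj]
      exact sup_compl_eq_top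
    rw [h2, SimpleGraph.card_edgeFinset_top_eq_card_choose_two, Fintype.card_fin]
  rcases Nat.le_total A.edgeFinset.card (Aᶜ).edgeFinset.card with h | h
  · refine b1.trans ?_
    gcongr
    · norm_num
    · omega
  · refine b2.trans ?_
    gcongr
    · norm_num
    · omega

lemma upper_a (n : ℕ) : a n ≤ n.factorial * 2 ^ (n.choose 2 / 2) := by
  apply csSup_le
  · exact ⟨0, ∅, by intro A hA; simp at hA, rfl⟩
  · rintro k ⟨F, hF, rfl⟩
    exact upper hF

lemma limit : Tendsto (fun n : ℕ => Real.logb 2 (a n : ℝ) / (n : ℝ) ^ 2) atTop (𝓝 (1 / 4)) := by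
  have h1 : Tendsto (fun n : ℕ => (1 : ℝ) / (n : ℝ)) atTop (𝓝 0) :=
    tendsto_one_div_atTop_nhds_zero_nat
  have hlog : Tendsto (fun n : ℕ => Real.log (n : ℝ) / (n : ℝ)) atTop (𝓝 0) := by
    have h := Real.isLittleO_log_id_atTop.tendsto_div_nhds_zero
    exact h.comp tendsto_natCast_atTop_atTop
  have hL : Tendsto (fun n : ℕ => 1 / 4 * (1 - 1 / (n : ℝ)) ^ 2 - (1 / (n : ℝ)) ^ 2) atTop
      (𝓝 (1 / 4)) := by
    have h := (((h1.const_sub 1).pow 2).const_mul (1 / 4)).sub (h1.pow 2)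
    have e : (1 / 4 * (1 - 0) ^ 2 - 0 ^ 2 : ℝ) = 1 / 4 := by norm_num
    rw [e] at h
    exact h
  have hU : Tendsto (fun n : ℕ => Real.log (n : ℝ) / (n : ℝ) / Real.log 2 + 1 / 4) atTop
      (𝓝 (1 / 4)) := by
    have h := (hlog.div_const (Real.log 2)).add_const (1 / 4)
    have e : (0 / Real.log 2 + 1 / 4 : ℝ) = 1 / 4 := by norm_num
    rw [e] at h
    exact h
  have hlog2 : 0 < Real.log 2 := Real.log_pos (by norm_num)
  refine tendsto_of_tendsto_of_tendsto_of_le_of_le' hL hU ?_ ?_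
  · filter_upwards [eventually_ge_atTop 1] with n hn
    have hn' : (1 : ℝ) ≤ (n : ℝ) := by exact_mod_cast hn
    have hn0 : (n : ℝ) ≠ 0 := by positivity
    have hlow : (((n - 1) ^ 2 / 4 : ℕ) : ℝ) ≤ Real.logb 2 (a n : ℝ) := by
      rw [Real.le_logb_iff_rpow_le (by norm_num), Real.rpow_natCast]
      · exact_mod_cast lower n
      · have := lower n
        have h2 : 0 < a n := lt_of_lt_of_le (by positivity) this
        exact_mod_cast h2
    have hlow2 : ((n : ℝ) - 1) ^ 2 / 4 - 1 ≤ (((n - 1) ^ 2 / 4 : ℕ) : ℝ) := by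
      have h3 : (n - 1) ^ 2 ≤ 4 * ((n - 1) ^ 2 / 4) + 4 := by omega
      have h4 : (((n - 1) ^ 2 : ℕ) : ℝ) ≤ ((4 * ((n - 1) ^ 2 / 4) + 4 : ℕ) : ℝ) := by
        exact_mod_cast h3
      push_cast [Nat.cast_sub hn] at h4
      linarith
    rw [le_div_iff₀ (by positivity)]
    refine le_trans (le_of_eq ?_) (hlow2.trans hlow)
    field_simp
  · filter_upwards [eventually_ge_atTop 1] with n hn
    have hn' : (1 : ℝ) ≤ (n : ℝ) := by exact_mod_cast hn
    have hn0 : (n : ℝ) ≠ 0 := by positivity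
    have hapos : (0 : ℝ) < (a n : ℝ) := by
      have := lower n
      have h2 : 0 < a n := lt_of_lt_of_le (by positivity) this
      exact_mod_cast h2
    have hup : (a n : ℝ) ≤ (n : ℝ) ^ n * 2 ^ (n.choose 2 / 2) := by
      have h3 := upper_a n
      have h4 : n.factorial ≤ n ^ n := Nat.factorial_le_pow n
      have h5 : a n ≤ n ^ n * 2 ^ (n.choose 2 / 2) := h3.trans (Nat.mul_le_mul_right _ h4)
      exact_mod_cast h5
    have hch : ((n.choose 2 / 2 : ℕ) : ℝ) ≤ (n : ℝ) ^ 2 / 4 := by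
      have h6 : n.choose 2 / 2 * 4 ≤ n ^ 2 := by
        rw [Nat.choose_two_right]
        have h7 : n * (n - 1) ≤ n ^ 2 := by
          rw [sq]; exact Nat.mul_le_mul_left _ (Nat.sub_le _ _)
        omega
      have h8 : (((n.choose 2 / 2 * 4 : ℕ)) : ℝ) ≤ ((n ^ 2 : ℕ) : ℝ) := by exact_mod_cast h6
      push_cast at h8
      linarith
    have hlogb : Real.logb 2 (a n : ℝ) ≤ n * (Real.log n / Real.log 2) + (n : ℝ) ^ 2 / 4 := by
      have h9 : Real.log (a n : ℝ) ≤ n * Real.log n + ((n.choose 2 / 2 : ℕ) : ℝ) * Real.log 2 := by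
        refine (Real.log_le_log hapos hup).trans (le_of_eq ?_)
        rw [Real.log_mul (by positivity) (by positivity), Real.log_pow, Real.log_pow]
      rw [Real.logb, div_le_iff₀ hlog2]
      have e : (n * (Real.log n / Real.log 2) + (n : ℝ) ^ 2 / 4) * Real.log 2 =
          n * Real.log n + (n : ℝ) ^ 2 / 4 * Real.log 2 := by
        field_simp
      rw [e]
      have h10 : ((n.choose 2 / 2 : ℕ) : ℝ) * Real.log 2 ≤ (n : ℝ) ^ 2 / 4 * Real.log 2 := by
        gcongr
      linarith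
    rw [div_le_iff₀ (by positivity)]
    refine hlogb.trans (le_of_eq ?_)
    field_simp

/-- For every `n`, `2 ^ ⌊(n-1)²/4⌋ ≤ a(n) ≤ n! 2 ^ ⌊N/2⌋` with `N = n(n-1)/2`, and
`log₂ a(n) / n² → 1/4`. -/
theorem result :
    (∀ n : ℕ, 2 ^ ((n - 1) ^ 2 / 4) ≤ a n ∧ a n ≤ n.factorial * 2 ^ (n.choose 2 / 2)) ∧
      Tendsto (fun n : ℕ => Real.logb 2 (a n : ℝ) / (n : ℝ) ^ 2) atTop (𝓝 (1 / 4)) :=
  ⟨fun n => ⟨lower n, upper_a n⟩, limit⟩

end Pool.Agent.Results.MP_ce3f89_co.Growth
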